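import Pool.Agent.H261EQ.Main

/-!
# The equality problem in the varieties `M(n)` and `S(n)`

The equality problem is undecidable in `M(n)` for every `n ≥ 3`, in `S(n)` for every `n ≥ 6`, and
in every class of algebras that contains `M(3) ∩ S(6)`.
-/

set_option autoImplicit false

namespace Pool.Agent.Results.MP_79b5eb_lc.Undecidable

open Pool.Agent.H261EQ

universe u

theorem result (F : Type u) [Field F] [CharZero F] :
    (∀ n, 3 ≤ n → ¬ EqualityDecidable (varM F n)) ∧
    (∀ n, 6 ≤ n → ¬ EqualityDecidable (varS F n)) ∧
    (∀ K : Set (AssocAlg F), varM F 3 ∩ varS F 6 ⊆ K → ¬ EqualityDecidable K) := by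
  have : Infinite F := Infinite.of_injective (fun n : ℕ => (n : F)) Nat.cast_injective
  refine ⟨fun n hn => ?_, fun n hn => ?_, fun K hK => ?_⟩
  · exact undecidable _ fun Q _ M => varM_mono hn model_varM
  · exact undecidable _ fun Q _ M => model_varS hn
  · exact undecidable _ fun Q _ M => hK ⟨model_varM, model_varS le_rfl⟩

end Pool.Agent.Results.MP_79b5eb_lc.Undecidable
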